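import Mathlib
import Pool.Agent.W628.AbSalem.Final

/-!
# MP_1f45fc_nt: Perron numbers with abelian trace field

Let `β` be a Perron number below Lehmer's number such that `β + 1/β` lies in a cyclotomic field.
Then `β ^ n` is a Parry number for only finitely many `n`.  In particular no Salem number below
Lehmer's number has this property.
-/

set_option autoImplicit false

namespace Pool.Agent.Results.MP_1f45fc_nt.AbelianTraceField

open Polynomial Pool.Agent.W628.AbSalem Pool.Agent.H196R3.Parry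

lemma lehmer_lt {τ : ℝ} (h1 : 1 < τ)
    (h : τ ^ 10 + τ ^ 9 - τ ^ 7 - τ ^ 6 - τ ^ 5 - τ ^ 4 - τ ^ 3 + τ + 1 = 0) :
    τ < 1.17629 := by
  by_contra hlt
  push Not at hlt
  obtain ⟨s, rfl⟩ : ∃ s : ℝ, τ = 1.17629 + s := ⟨τ - 1.17629, by ring⟩
  have hs : 0 ≤ s := by linarith
  have h2 : (0:ℝ) < (1.17629 + s) ^ 10 + (1.17629 + s) ^ 9 - (1.17629 + s) ^ 7 -
      (1.17629 + s) ^ 6 - (1.17629 + s) ^ 5 - (1.17629 + s) ^ 4 - (1.17629 + s) ^ 3 +
      (1.17629 + s) + 1 := by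
    ring_nf
    positivity
  linarith

/-- No real algebraic integer in `(1, 1.17629)` with all other conjugates in the closed unit disc
has `β + 1/β` in a cyclotomic field. -/
lemma no_small {β : ℝ} (hβ : 1 < β) (hβ2 : β < 1.17629) (hint : IsIntegral ℤ β)
    (hone : ∀ z : ℂ, aeval z (minpoly ℤ β) = 0 → z ≠ (β : ℂ) → ‖z‖ ≤ 1)
    (hex : ∃ N : ℕ, 0 < N ∧
      ((β + β⁻¹ : ℝ) : ℂ) ∈ IntermediateField.adjoin ℚ {z : ℂ | z ^ N = 1}) : False := by
  obtain ⟨u1, u2, u3⟩ := inv_facts hβ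
  have hb2 := two_lt hβ
  rcases bound hβ hint hone hex with h | ⟨hτ, h⟩
  · nlinarith
  set k := (minpoly ℚ (β + β⁻¹)).natDegree with hk
  have hτq : IsIntegral ℚ (β + β⁻¹) := hτ.tower_top
  have hk0 : 0 < k := minpoly.natDegree_pos hτq
  -- upper bound for `β + 1/β`
  have hb3 : β + β⁻¹ < 2.03 := by
    have e1 : (β + β⁻¹ - 2.03) * β < 0 := by
      have : (β + β⁻¹ - 2.03) * β = β ^ 2 - 2.03 * β + 1 := by
        rw [sub_mul, add_mul, mul_comm β⁻¹ β, u3]
        ring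
      rw [this]
      nlinarith
    by_contra hcon
    push Not at hcon
    have : 0 ≤ (β + β⁻¹ - 2.03) * β := mul_nonneg (by linarith) (by linarith)
    linarith
  have hk1 : k ≠ 1 := by
    intro h1
    rw [hk, minpoly.natDegree_eq_one_iff] at h1
    obtain ⟨q, hq⟩ := h1
    have h2 : IsIntegral ℤ q := (isIntegral_algebraMap_iff (algebraMap ℚ ℝ).injective).mp
      (by rw [hq]; exact hτ)
    obtain ⟨n, hn⟩ := IsIntegrallyClosed.isIntegral_iff.mp h2
    have h3 : (n : ℝ) = β + β⁻¹ := by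
      rw [← hq, ← hn]
      simp
    rw [← h3] at hb2 hb3
    have h4 : (2 : ℤ) < n := by exact_mod_cast hb2
    have h5 : (n : ℝ) < 3 := by linarith
    have h6 : n < (3 : ℤ) := by exact_mod_cast h5
    omega
  -- bound for `β^5 + β^(-5)`
  have hβ5 : β ^ 5 < 2.2522 := by
    have : β ^ 5 < (1.17629 : ℝ) ^ 5 := pow_lt_pow_left₀ hβ2 (by linarith) (by norm_num)
    have h2 : (1.17629 : ℝ) ^ 5 < 2.2522 := by norm_num
    linarith
  have hβ51 : 1 < β ^ 5 := one_lt_pow₀ hβ (by norm_num)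
  have hu5 : β ^ 5 * (β⁻¹) ^ 5 = 1 := by rw [← mul_pow, u3, one_pow]
  have hB : β ^ 5 + (β⁻¹) ^ 5 < 2.7 := by
    set x := β ^ 5 with hx
    set y := (β⁻¹) ^ 5 with hy
    have hy0 : 0 < y := by positivity
    by_contra hcon
    push Not at hcon
    have h1 : 0 ≤ (x + y - 2.7) * x := mul_nonneg (by linarith) (by linarith)
    have h2 : (x + y - 2.7) * x = x ^ 2 - 2.7 * x + 1 := by
      have : (x + y - 2.7) * x = x ^ 2 - 2.7 * x + x * y := by ring
      rw [this, hu5]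
    rw [h2] at h1
    nlinarith
  have hBpos : 0 < β ^ 5 + (β⁻¹) ^ 5 := by positivity
  have hW : ((β ^ 5 + (β⁻¹) ^ 5 + 2) / 4) ^ 2 < 25 / 16 := by nlinarith
  obtain ⟨j, hj⟩ : ∃ j, k = j + 2 := ⟨k - 2, by omega⟩
  rw [hj] at h
  have h4 : (0 : ℝ) < 4 ^ (j + 2) := by positivity
  have h5 : (5 : ℝ) ^ (j + 2) < 4 ^ (j + 2) * (25 / 16) :=
    lt_of_le_of_lt h (mul_lt_mul_of_pos_left hW h4)
  have h6 : (4 : ℝ) ^ j ≤ 5 ^ j := pow_le_pow_left₀ (by norm_num) (by norm_num) j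
  rw [pow_add, pow_add] at h5
  nlinarith

/-- Let `β` be a Perron number smaller than Lehmer's number `τ` such that `β + 1/β` lies in a
cyclotomic field.  Then `β^n` is a Parry number for only finitely many `n`. -/
theorem result :
    ∀ τ : ℝ, 1 < τ →
      τ ^ 10 + τ ^ 9 - τ ^ 7 - τ ^ 6 - τ ^ 5 - τ ^ 4 - τ ^ 3 + τ + 1 = 0 →
      ∀ β : ℝ, 1 < β → β < τ → IsIntegral ℤ β →
      (∀ z : ℂ, aeval z (minpoly ℤ β) = 0 → z ≠ (β : ℂ) → ‖z‖ < β) →
      (∃ N : ℕ, 0 < N ∧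
        ((β + β⁻¹ : ℝ) : ℂ) ∈ IntermediateField.adjoin ℚ {z : ℂ | z ^ N = 1}) →
      Set.Finite {n : ℕ | 1 ≤ n ∧
        Set.Finite (Set.range (fun k : ℕ =>
          (fun x : ℝ => Int.fract (β ^ n * x))^[k] (1 : ℝ)))} := by
  intro τ hτ1 hτ β hβ hβτ hint hperron hex
  have hτ2 := lehmer_lt hτ1 hτ
  by_contra hinf
  have hinf' : {n : ℕ | 1 ≤ n ∧ (Set.range (orb (β ^ n))).Finite}.Infinite := hinf
  exact no_small hβ (by linarith) hint
    (fun z hz hne => conj_le_one hβ hint hperron hinf' hz hne) hex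

end Pool.Agent.Results.MP_1f45fc_nt.AbelianTraceField
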