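import Mathlib
import Pool.Agent.W738.SAL.F

/-!
# Parry powers and Frobenius congruences in the trace field
-/

set_option autoImplicit false

open Polynomial NumberField

namespace Pool.Agent.Results.MP_1f45fc_nt.FrobeniusCongruence

open Pool.Agent.W738.SAL

/-- Let `β` be a Perron number, `β⁻¹` a conjugate of `β`, `t = tt β = β + β⁻¹`, `TF β = ℚ(t)`,
`U β m = β ^ m + β ^ (-m)`.  If `t ^ (p ^ i) ≡ σ(t) ^ (p ^ j)` modulo `p` for a prime `p` and an
automorphism `σ` of `TF β`, where `j < i`, or `j = i` and `σ ≠ 1`, and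
`(U β (p ^ i) + 2) (U β (p ^ j) + 2) < 16 (p / 4) ^ [TF β : ℚ]`, then only finitely many powers of
`β` are Parry numbers. -/
theorem result :
    ∀ β : ℝ, IsPerron β → IsReciprocal β → ∀ p : ℕ, p.Prime → ∀ (i j : ℕ)
      (σ : TF β ≃ₐ[ℚ] TF β) (y : TF β), (j < i ∨ (j = i ∧ σ ≠ 1)) → IsIntegral ℤ y →
      tt β ^ (p ^ i) - (σ (tt β)) ^ (p ^ j) = p * y →
      (U β (p ^ i) + 2) * (U β (p ^ j) + 2) < 16 * ((p : ℝ) / 4) ^ (Module.finrank ℚ (TF β)) →
      (ParryPowers β).Finite := by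
  intro β hP hrec p hp i j σ y hij hy hσ hb
  exact main1 hP hrec hp hij hy hσ hb

end Pool.Agent.Results.MP_1f45fc_nt.FrobeniusCongruence
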