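import Mathlib
import Pool.Agent.W738.SAL.O

/-!
# Parry powers and trace fields Galois over a subfield with small conjugacy classes
-/

set_option autoImplicit false

namespace Pool.Agent.Results.MP_1f45fc_nt.SmallClasses

open Pool.Agent.W738.SAL

/-- Let `β` be a Perron number, `β⁻¹` a conjugate of `β`, `K = TF β = ℚ(β + β⁻¹)`, `n = [K : ℚ]`,
Galois over a subfield `F`, all conjugacy classes of `Gal(K/F)` having at most `c` elements (`c = 1`:
abelian), with ramification indices of the prime `p` in `K` at most `p ^ k`.  If the `c`-th power of
the product over the primes `P` of `F` above `p` of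
`(U β (N(P) p ^ k) + 2) (U β (p ^ k) + 2) 4 ^ n / 16` is less than `p ^ n`, then only finitely many
powers of `β` are Parry numbers. -/
theorem result (β : ℝ) (hP : IsPerron β) (hrec : IsReciprocal β) (p k c : ℕ) (hp : p.Prime)
    (h : RelGalois (TF β) β p k c) : (ParryPowers β).Finite :=
  main8 hP hrec hp h

end Pool.Agent.Results.MP_1f45fc_nt.SmallClasses
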